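import Pool.Agent.AddInv.Example

/-!
# Addition-invariant first-order logic is not Gaifman-local

There is a first-order formula `φ(x)` over coloured graphs with a built-in addition which is
addition-invariant and whose unary query is not Gaifman-local for any constant radius.

Idea: a graph with a tiny part `S` and a part containing (as vertices) all binary relations between
two base sets `B₁`, `B₂`.  Addition allows one to translate `S` injectively into the (huge) set of
relation vertices, whatever the numbering is; distinguishing sets then give a definable injection of
`S` into `B₁`, which exists iff `|S| ≤ |B₁|`.  So all subsets of `S` can be quantified over, and
connectivity inside `S` is expressible by an addition-invariant formula.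
-/

namespace Pool.Agent.Results.MP_abe753_lc.NotGaifmanLocal

open Pool.Agent.AddInv

/-- There is an addition-invariant first-order formula with one free variable over graphs with six
colour predicates such that the query it defines is not Gaifman-local. -/
theorem result : ∃ φ : (voc 6).Formula (Fin 1), AddInvariant φ ∧ ¬ GaifmanLocal φ :=
  ⟨Phi, addInvariant_Phi, not_gaifmanLocal_Phi⟩

end Pool.Agent.Results.MP_abe753_lc.NotGaifmanLocal
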